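import Pool.Agent.W169.HF.DefsC
import Pool.Agent.W327.HF.Fwd

/-!
Project SC, task FWD2: zeros of the heat flow on the line from a bound on the line
(adapted from `Pool.Agent.W327.HF.Fwd`).
-/

set_option autoImplicit false

open Complex MeasureTheory Filter Topology Set
open scoped ComplexConjugate

namespace Pool.Agent.W131.HF

open Pool.Agent.W169.HF W327.HF

theorem Mj_mono {κ κ' ϑ M0 ℓ G : ℝ} {f : ℂ → ℂ} (h : Mj κ ϑ M0 ℓ G f) (hκ : κ ≤ κ') (hℓ : 0 ≤ ℓ)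
    (hG : 0 ≤ G) : Mj κ' ϑ M0 ℓ G f := by
  have h1 : κ * ℓ ≤ κ' * ℓ := mul_le_mul_of_nonneg_right hκ hℓ
  intro r a b
  refine (h r a b).trans ?_
  exact mul_le_mul_of_nonneg_left (Real.exp_le_exp.2 (by linarith)) hG

theorem fwd2_of (h2 : S_JU2) (h3 : S_JL2) : S_FWD2 := by
  intro K ϑ0 ϑ M0 g X hK hϑ0 hϑ02 hϑ hϑ3 hM hMϑ hg hg1 hX
  have hX0 : 0 < X := by linarith
  obtain ⟨ζU, hζU, hJU0⟩ := h2 K ϑ0 ϑ M0 g X 3 hK hϑ0 hϑ02 hϑ hϑ3 hM hMϑ hg hg1 hX le_rfl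
  obtain ⟨ζL, hζL, hJL⟩ := h3 K ϑ0 ϑ M0 g X 3 hK hϑ0 hϑ02 hϑ hϑ3 hM hMϑ hg hg1 hX le_rfl
  obtain ⟨ζ, hζd⟩ : ∃ ζ : ℝ, ζ = min (min ζU ζL) (1 / (64 * X)) := ⟨_, rfl⟩
  have hζ : 0 < ζ := by rw [hζd]; exact lt_min (lt_min hζU hζL) (by positivity)
  have hζ1 : ζ ≤ ζL := by rw [hζd]; exact (min_le_left _ _).trans (min_le_right _ _)
  have hζ2 : ζ ≤ ζU := by rw [hζd]; exact (min_le_left _ _).trans (min_le_left _ _)
  have hζX : ζ * X ≤ 1 / 64 := by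
    have : ζ ≤ 1 / (64 * X) := by rw [hζd]; exact min_le_right _ _
    rw [le_div_iff₀ (by positivity)] at this
    linarith
  have hζg : ζ ≤ 1 / 64 := by nlinarith
  obtain ⟨κ0, ℓL, hκ0, hJL'⟩ := hJL ζ hζ hζ1
  obtain ⟨κ, hκd⟩ : ∃ κ : ℝ, κ = min κ0 (ζ / 64) := ⟨_, rfl⟩
  have hκ : 0 < κ := by rw [hκd]; exact lt_min hκ0 (by positivity)
  have hκ1 : κ ≤ κ0 := by rw [hκd]; exact min_le_left _ _
  have hκ2 : κ ≤ ζ / 64 := by rw [hκd]; exact min_le_right _ _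
  obtain ⟨ℓU, hJU⟩ := hJU0 κ hκ
  refine ⟨κ, 2 * X + 2 * 3 + 4, max 1 (max ℓL ℓU), hκ, ?_⟩
  intro ℓ G t f hℓ hUD hPf hMj ht hL1 hL2 x hx hx2 h0
  have hℓ1 : 1 ≤ ℓ := (le_max_left _ _).trans hℓ
  have hℓL : ℓL ≤ ℓ := ((le_max_left _ _).trans (le_max_right _ _)).trans hℓ
  have hℓU : ℓU ≤ ℓ := ((le_max_right _ _).trans (le_max_right _ _)).trans hℓ
  have hℓ0 : 0 < ℓ := by linarith
  have hG : 0 < G := hUD.hG
  have hPf0 : Pf κ0 ϑ (2 * X + 2 * 3 + 4) ℓ G f := Pf_mono hPf hκ1 hℓ0.le hG.le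
  have hMj0 : Mj κ0 ϑ M0 ℓ G f := Mj_mono hMj hκ1 hℓ0.le hG.le
  have hL0 : 0 < 2 * t * ℓ := by positivity
  have hgL : 1 / 2 ≤ 2 * t * ℓ := by
    by_contra hcon
    push Not at hcon
    nlinarith [mul_nonneg hM hL0.le]
  -- the bounds for `J`
  have hlow : ∀ a : ℂ, |a.im| ≤ ζ * ℓ → 2 * t * a.re ≤ 3 → -(ζ * ℓ) ≤ a.re →
      G * Real.exp (t * (ℓ + a.re) ^ 2 - ζ ^ 2 * X * ℓ) ≤ ‖J t f a‖ := by
    intro a ha1 ha2 ha3
    exact hJL' ℓ G t f hℓL hUD hPf0 hMj0 ht hL1 hL2 a ha1 ha2 ha3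
  have hupp : ∀ α : ℝ, 2 * t * α ≤ 3 → -(ζ * ℓ) ≤ α →
      IntegrableOn (fun r : ℝ => Real.exp (-(r ^ 2 / (4 * t)) + α * r) * ‖f r‖) (Ioi 0) ∧
      ∫ r in Ioi (0 : ℝ), Real.exp (-(r ^ 2 / (4 * t)) + α * r) * ‖f r‖ ≤
        G * Real.exp (t * (ℓ + α) ^ 2 + 2 * κ * ℓ) := by
    intro α ha1 ha2
    refine hJU ℓ G t f hℓU hUD hPf hMj ht hL1 hL2 α ha1 ?_
    have : ζ * ℓ ≤ ζU * ℓ := mul_le_mul_of_nonneg_right hζ2 hℓ0.le
    linarith
  obtain ⟨ε, hε, hfe⟩ := hUD.fe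
  have heq := heat_zero hUD.slow hε hfe ht h0
  obtain ⟨a, had⟩ : ∃ a : ℝ, a = |x| / (2 * t) := ⟨_, rfl⟩
  have ha0 : 0 < a := by rw [had]; exact div_pos (abs_pos.2 hx) (by positivity)
  have h2ta : 2 * t * a ≤ 2 := by
    have : 2 * t * a = |x| := by rw [had]; field_simp
    rw [this]; exact hx2
  have heq' : ‖J t f (a : ℂ)‖ = ‖J t f (-(a : ℂ))‖ := by
    rcases le_total 0 x with h | h
    · rw [had, abs_of_nonneg h, heq]
      push_cast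
      rfl
    · rw [had, abs_of_nonpos h, neg_div]
      push_cast
      rw [neg_neg]
      push_cast at heq
      rw [← heq]
  have hb1 : 2 * t * (ζ * ℓ) ≤ 3 := by
    have : 2 * t * (ζ * ℓ) = ζ * (2 * t * ℓ) := by ring
    rw [this]
    have h5 : ζ * (2 * t * ℓ) ≤ ζ * X := mul_le_mul_of_nonneg_left hL2 hζ.le
    linarith
  have hzX : ζ ^ 2 * X ≤ ζ * (1 / 64) := by
    have : ζ ^ 2 * X = ζ * (ζ * X) := by ring
    rw [this]
    exact mul_le_mul_of_nonneg_left hζX hζ.le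
  have hLζ : ζ * (1 / 2) ≤ ζ * (2 * t * ℓ) := mul_le_mul_of_nonneg_left hgL hζ.le
  rcases le_or_gt a (ζ * ℓ / 2) with hcase | hcase
  · -- near the line
    have hball : ∀ z ∈ Metric.ball (0 : ℂ) (ζ * ℓ), |z.re| ≤ ζ * ℓ ∧ |z.im| ≤ ζ * ℓ := by
      intro z hz
      rw [mem_ball_zero_iff] at hz
      exact ⟨(Complex.abs_re_le_norm z).trans hz.le, (Complex.abs_im_le_norm z).trans hz.le⟩
    have hlow' : ∀ z ∈ Metric.ball (0 : ℂ) (ζ * ℓ),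
        G * Real.exp (t * (ℓ + z.re) ^ 2 - ζ ^ 2 * X * ℓ) ≤ ‖J t f z‖ := by
      intro z hz
      obtain ⟨b1, b2⟩ := hball z hz
      rw [abs_le] at b1
      refine hlow z b2 ?_ b1.1
      have : 2 * t * z.re ≤ 2 * t * (ζ * ℓ) := mul_le_mul_of_nonneg_left b1.2 (by positivity)
      linarith
    have hne : ∀ z ∈ Metric.ball (0 : ℂ) (ζ * ℓ), J t f z ≠ 0 := by
      intro z hz
      exact norm_pos_iff.1 (lt_of_lt_of_le (by positivity) (hlow' z hz))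
    refine compare (J := J t f) (r := ζ * ℓ) (A := 4 * t * ℓ) (M := (2 * κ + ζ ^ 2 * X) * ℓ) (a := a)
      (by positivity) (by positivity) (fun z _ => J_diff hUD.slow ht z) hne ?_ ha0 hcase ?_ heq'
    · intro z hz
      have hz' : -z ∈ Metric.ball (0 : ℂ) (ζ * ℓ) := by
        rw [mem_ball_zero_iff] at hz ⊢
        rwa [norm_neg]
      obtain ⟨b1, b2⟩ := hball z hz
      rw [abs_le] at b1
      have q1 := (J_norm_le (t := t) (f := f) z).trans (hupp z.re (by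
        have : 2 * t * z.re ≤ 2 * t * (ζ * ℓ) := mul_le_mul_of_nonneg_left b1.2 (by positivity)
        linarith) (by linarith)).2
      have q2 := hlow' (-z) hz'
      rw [Complex.neg_re] at q2
      calc ‖J t f z‖ ≤ G * Real.exp (t * (ℓ + z.re) ^ 2 + 2 * κ * ℓ) := q1
        _ = Real.exp (4 * t * ℓ * z.re + (2 * κ + ζ ^ 2 * X) * ℓ) *
              (G * Real.exp (t * (ℓ + -z.re) ^ 2 - ζ ^ 2 * X * ℓ)) := by
            rw [mul_left_comm, ← Real.exp_add]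
            congr 2; ring
        _ ≤ _ := by gcongr
    · have e : 4 * t * ℓ * (ζ * ℓ) = 2 * (ζ * (2 * t * ℓ)) * ℓ := by ring
      rw [e]
      have e2 : 4 * ((2 * κ + ζ ^ 2 * X) * ℓ) = (4 * (2 * κ + ζ ^ 2 * X)) * ℓ := by ring
      rw [e2]
      refine mul_lt_mul_of_pos_right ?_ hℓ0
      linarith
  · -- far from the line
    have q1 := hlow (a : ℂ) (by rw [Complex.ofReal_im, abs_zero]; positivity)
      (by rw [Complex.ofReal_re]; linarith) (by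
        rw [Complex.ofReal_re]
        have : 0 < ζ * ℓ := by positivity
        linarith)
    rw [Complex.ofReal_re] at q1
    have q2 := hupp (-(ζ * ℓ / 2)) (by
      have : 0 < t * (ζ * ℓ) := by positivity
      linarith) (by
      have : 0 < ζ * ℓ := by positivity
      linarith)
    have q3 : ‖J t f (-(a : ℂ))‖ ≤
        ∫ r in Ioi (0 : ℝ), Real.exp (-(r ^ 2 / (4 * t)) + -(ζ * ℓ / 2) * r) * ‖f r‖ := by
      refine (J_norm_le _).trans ?_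
      refine setIntegral_mono_on ?_ q2.1 measurableSet_Ioi ?_
      · have := (J_int hUD.slow ht (-(a : ℂ))).norm.integrableOn (s := Ioi (0 : ℝ))
        refine this.congr (Eventually.of_forall fun r => ?_)
        simp only
        rw [norm_mul, Complex.norm_exp, re_arg]
      · intro r hr
        have hr0 : (0 : ℝ) < r := hr
        rw [Complex.neg_re, Complex.ofReal_re]
        gcongr
    rw [← heq'] at q3
    have q4 := (q1.trans q3).trans q2.2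
    have q5 := le_of_mul_le_mul_left q4 hG
    rw [Real.exp_le_exp] at q5
    have e1 : t * (ℓ + a) ^ 2 = t * ℓ ^ 2 + (2 * t * ℓ) * a + t * a ^ 2 := by ring
    have e2 : t * (ℓ + -(ζ * ℓ / 2)) ^ 2 ≤ t * ℓ ^ 2 := by
      have h5 : ζ * ℓ / 2 ≤ ℓ := by nlinarith
      have h6 : 0 ≤ ζ * ℓ / 2 := by positivity
      refine mul_le_mul_of_nonneg_left ?_ ht.le
      apply pow_le_pow_left₀ <;> linarith
    have e3 : 0 ≤ t * a ^ 2 := by positivity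
    have e4 : (2 * t * ℓ) * (ζ * ℓ / 2) ≤ (2 * t * ℓ) * a :=
      mul_le_mul_of_nonneg_left hcase.le (by positivity)
    have e5 : (2 * t * ℓ) * (ζ * ℓ / 2) = ζ * (2 * t * ℓ) / 2 * ℓ := by ring
    have e6 : (ζ ^ 2 * X + 2 * κ) * ℓ < ζ * (2 * t * ℓ) / 2 * ℓ := by
      refine mul_lt_mul_of_pos_right ?_ hℓ0
      linarith
    have e7 : (ζ ^ 2 * X + 2 * κ) * ℓ = ζ ^ 2 * X * ℓ + 2 * κ * ℓ := by ring
    linarith

end Pool.Agent.W131.HF
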